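import Pool.Agent.TH959.HU.Cyl

/-!
# Project HU, parts A1 and A2: volumes and perimeters of cylindrical sets
-/

set_option autoImplicit false

open MeasureTheory Set Metric Filter Topology
open scoped ENNReal Real

noncomputable section

namespace Pool.Agent.TH959.HU

open Pool.Agent.TH304.MI Pool.Agent.TH703.HU Pool.Agent.TH959.MI

/-- the fibre -/
def Fb (m : ℕ) (x : ℂ) : Set (Fin (2 * m + 1) → ℝ) :=
  {y | |x.re| < 1 / 2 + y 0 ∧ |x.im| < 1 / 2 - y 0 ∧
    ∀ i : Fin (2 * m), if (i : ℕ) < m then |y i.succ| < 1 / 2 + y 0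
      else |y i.succ| < 1 / 2 - y 0}

theorem mem_Bd {m : ℕ} (p : PP (2 * m + 1)) : p ∈ Bd m ↔ yc p ∈ Fb m (xc p) := Iff.rfl

theorem cont_w (m : ℕ) : Continuous fun u : ℝ => (1 - 4 * u ^ 2) ^ m := by fun_prop

theorem w_pos {m : ℕ} {u : ℝ} (h1 : -(1 / 2) < u) (h2 : u < 1 / 2) : 0 < (1 - 4 * u ^ 2) ^ m := by
  apply pow_pos
  nlinarith

theorem NN_pos (m : ℕ) : 0 < NN m := by
  unfold NN
  refine intervalIntegral.intervalIntegral_pos_of_pos_on ((cont_w m).intervalIntegrable _ _)
    (fun u hu => w_pos hu.1 hu.2) (by norm_num)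

theorem wt_mul (m : ℕ) (x : ℂ) : NN m * wt m x =
    ∫ u in (|x.re| - 1 / 2)..(max (|x.re| - 1 / 2) (1 / 2 - |x.im|)), (1 - 4 * u ^ 2) ^ m := by
  unfold wt
  rw [mul_div_cancel₀ _ (NN_pos m).ne']

theorem wt_pos {m : ℕ} {x : ℂ} (h : |x.re| - 1 / 2 < 1 / 2 - |x.im|) : 0 < wt m x := by
  unfold wt
  refine div_pos ?_ (NN_pos m)
  rw [max_eq_right h.le]
  refine intervalIntegral.intervalIntegral_pos_of_pos_on ((cont_w m).intervalIntegrable _ _)
    (fun u hu => w_pos ?_ ?_) h
  · have := abs_nonneg x.re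
    linarith [hu.1]
  · have := abs_nonneg x.im
    linarith [hu.2]

theorem wt_nonneg (m : ℕ) (x : ℂ) : 0 ≤ wt m x := by
  rcases lt_or_ge (|x.re| - 1 / 2) (1 / 2 - |x.im|) with h | h
  · exact (wt_pos h).le
  · unfold wt
    rw [max_eq_left h, intervalIntegral.integral_same, zero_div]

theorem prod_c (m : ℕ) (a b : ℝ) :
    ∏ i : Fin (2 * m), (if (i : ℕ) < m then a else b) = a ^ m * b ^ m := by
  rw [Fin.prod_univ_eq_prod_range (fun i => if i < m then a else b) (2 * m), two_mul,
    Finset.prod_range_add]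
  congr 1
  · rw [Finset.prod_congr rfl (g := fun _ => a) fun i hi => if_pos (Finset.mem_range.1 hi),
      Finset.prod_const, Finset.card_range]
  · rw [Finset.prod_congr rfl (g := fun _ => b) fun i _ => if_neg (by omega),
      Finset.prod_const, Finset.card_range]

theorem meas_cond {X : Type} [TopologicalSpace X] [MeasurableSpace X] [OpensMeasurableSpace X]
    (m : ℕ) (s : X → ℝ) (z : X → Fin (2 * m) → ℝ) (hs : Continuous s) (hz : Continuous z) :
    MeasurableSet {q : X | ∀ i : Fin (2 * m), if (i : ℕ) < m then |z q i| < 1 / 2 + s q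
      else |z q i| < 1 / 2 - s q} := by
  have h : {q : X | ∀ i : Fin (2 * m), if (i : ℕ) < m then |z q i| < 1 / 2 + s q
      else |z q i| < 1 / 2 - s q} = ⋂ i : Fin (2 * m), {q : X | if (i : ℕ) < m then
        |z q i| < 1 / 2 + s q else |z q i| < 1 / 2 - s q} := by
    ext q
    simp
  rw [h]
  refine MeasurableSet.iInter fun i => ?_
  have hzi : Continuous fun q => |z q i| := ((continuous_apply i).comp hz).abs
  by_cases hi : (i : ℕ) < m
  · simp only [hi, if_true]
    exact (isOpen_lt hzi (continuous_const.add hs)).measurableSet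
  · simp only [hi, if_false]
    exact (isOpen_lt hzi (continuous_const.sub hs)).measurableSet

theorem vol_slice {m : ℕ} {s : ℝ} (h1 : -(1 / 2) < s) (h2 : s < 1 / 2) :
    volume {z : Fin (2 * m) → ℝ | ∀ i : Fin (2 * m), if (i : ℕ) < m then |z i| < 1 / 2 + s
      else |z i| < 1 / 2 - s} = ENNReal.ofReal ((1 - 4 * s ^ 2) ^ m) := by
  have h : {z : Fin (2 * m) → ℝ | ∀ i : Fin (2 * m), if (i : ℕ) < m then |z i| < 1 / 2 + s
      else |z i| < 1 / 2 - s} = Set.pi univ fun i : Fin (2 * m) =>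
      Ioo (-(if (i : ℕ) < m then 1 / 2 + s else 1 / 2 - s))
        (if (i : ℕ) < m then 1 / 2 + s else 1 / 2 - s) := by
    ext z
    rw [mem_univ_pi]
    refine forall_congr' fun i => ?_
    split_ifs <;> exact abs_lt
  rw [h, Real.volume_pi_Ioo, ← ENNReal.ofReal_prod_of_nonneg]
  · congr 1
    have h3 : ∀ i : Fin (2 * m), (if (i : ℕ) < m then 1 / 2 + s else 1 / 2 - s) -
        -(if (i : ℕ) < m then 1 / 2 + s else 1 / 2 - s) =
        if (i : ℕ) < m then 1 + 2 * s else 1 - 2 * s := by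
      intro i
      split_ifs <;> ring
    rw [Finset.prod_congr rfl fun i _ => h3 i, prod_c, ← mul_pow]
    congr 1
    ring
  · intro i _
    split_ifs <;> linarith

theorem vol_Fb (m : ℕ) (x : ℂ) : volume (Fb m x) = ENNReal.ofReal (NN m * wt m x) := by
  set e := MeasurableEquiv.piFinSuccAbove (fun _ : Fin (2 * m + 1) => ℝ) 0 with he
  have hm : MeasurePreserving e volume volume :=
    volume_preserving_piFinSuccAbove (fun _ : Fin (2 * m + 1) => ℝ) 0
  set S : Set (ℝ × (Fin (2 * m) → ℝ)) := {q | |x.re| < 1 / 2 + q.1 ∧ |x.im| < 1 / 2 - q.1 ∧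
    ∀ i : Fin (2 * m), if (i : ℕ) < m then |q.2 i| < 1 / 2 + q.1 else |q.2 i| < 1 / 2 - q.1}
    with hS
  have hSm : MeasurableSet S := by
    refine MeasurableSet.inter ?_ (MeasurableSet.inter ?_ ?_)
    · exact (isOpen_lt continuous_const (continuous_const.add continuous_fst)).measurableSet
    · exact (isOpen_lt continuous_const (continuous_const.sub continuous_fst)).measurableSet
    · exact meas_cond m (fun q : ℝ × (Fin (2 * m) → ℝ) => q.1) (fun q => q.2) continuous_fst
        continuous_snd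
  have h1 : Fb m x = e ⁻¹' S := rfl
  rw [h1, hm.measure_preimage hSm.nullMeasurableSet, Measure.volume_eq_prod,
    Measure.prod_apply hSm]
  have h2 : ∀ s : ℝ, volume (Prod.mk s ⁻¹' S) = (Ioo (|x.re| - 1 / 2) (1 / 2 - |x.im|)).indicator
      (fun s => ENNReal.ofReal ((1 - 4 * s ^ 2) ^ m)) s := by
    intro s
    by_cases hs : s ∈ Ioo (|x.re| - 1 / 2) (1 / 2 - |x.im|)
    · rw [indicator_of_mem hs, ← vol_slice (m := m) (s := s)
        (by have := abs_nonneg x.re; linarith [hs.1]) (by have := abs_nonneg x.im; linarith [hs.2])]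
      congr 1
      ext z
      constructor
      · exact fun h => h.2.2
      · exact fun h => ⟨by change |x.re| < 1 / 2 + s; linarith [hs.1],
          by change |x.im| < 1 / 2 - s; linarith [hs.2], h⟩
    · rw [indicator_of_notMem hs]
      have : Prod.mk s ⁻¹' S = ∅ := by
        ext z
        constructor
        · rintro ⟨h3, h4, -⟩
          change |x.re| < 1 / 2 + s at h3
          change |x.im| < 1 / 2 - s at h4
          exact absurd ⟨by linarith, by linarith⟩ hs
        · exact fun h => absurd h (notMem_empty _)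
      rw [this, measure_empty]
  rw [lintegral_congr h2, lintegral_indicator measurableSet_Ioo, wt_mul,
    intervalIntegral.integral_of_le (le_max_left _ _), integral_Ioc_eq_integral_Ioo]
  have h3 : Ioo (|x.re| - 1 / 2) (max (|x.re| - 1 / 2) (1 / 2 - |x.im|)) =
      Ioo (|x.re| - 1 / 2) (1 / 2 - |x.im|) := by
    ext s
    simp only [mem_Ioo, lt_max_iff]
    constructor
    · rintro ⟨h4, h5 | h5⟩
      · exact absurd h4 (not_lt.2 h5.le)
      · exact ⟨h4, h5⟩
    · exact fun h => ⟨h.1, Or.inr h.2⟩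
  rw [h3, ofReal_integral_eq_lintegral_ofReal]
  · exact ((cont_w m).integrableOn_Icc).mono_set Ioo_subset_Icc_self
  · filter_upwards [ae_restrict_mem measurableSet_Ioo] with s hs
    exact (w_pos (by have := abs_nonneg x.re; linarith [hs.1])
      (by have := abs_nonneg x.im; linarith [hs.2])).le

theorem meas_tot (m : ℕ) :
    MeasurableSet {q : ℂ × (Fin (2 * m + 1) → ℝ) | q.2 ∈ Fb m q.1} := by
  have hr : Continuous fun q : ℂ × (Fin (2 * m + 1) → ℝ) => |q.1.re| :=
    (Complex.continuous_re.comp continuous_fst).abs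
  have hi : Continuous fun q : ℂ × (Fin (2 * m + 1) → ℝ) => |q.1.im| :=
    (Complex.continuous_im.comp continuous_fst).abs
  have h0 : Continuous fun q : ℂ × (Fin (2 * m + 1) → ℝ) => q.2 0 :=
    (continuous_apply _).comp continuous_snd
  refine MeasurableSet.inter ?_ (MeasurableSet.inter ?_ ?_)
  · exact (isOpen_lt hr (continuous_const.add h0)).measurableSet
  · exact (isOpen_lt hi (continuous_const.sub h0)).measurableSet
  · exact meas_cond m (fun q : ℂ × (Fin (2 * m + 1) → ℝ) => q.2 0) (fun q i => q.2 i.succ) h0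
      (continuous_pi fun i => (continuous_apply _).comp continuous_snd)

theorem meas_wt (m : ℕ) : Measurable fun x => NN m * wt m x := by
  have h1 : Measurable fun x : ℂ => volume (Prod.mk x ⁻¹'
      {q : ℂ × (Fin (2 * m + 1) → ℝ) | q.2 ∈ Fb m q.1}) := measurable_measure_prodMk_left (meas_tot m)
  have h2 : (fun x => NN m * wt m x) = fun x : ℂ => (volume (Prod.mk x ⁻¹'
      {q : ℂ × (Fin (2 * m + 1) → ℝ) | q.2 ∈ Fb m q.1})).toReal := by
    funext x
    have h3 : Prod.mk x ⁻¹' {q : ℂ × (Fin (2 * m + 1) → ℝ) | q.2 ∈ Fb m q.1} = Fb m x := rfl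
    rw [h3, vol_Fb, ENNReal.toReal_ofReal (mul_nonneg (NN_pos m).le (wt_nonneg m x))]
  rw [h2]
  exact h1.ennreal_toReal

theorem a1' : S_A1 := by
  intro m A hA
  obtain ⟨e, he, hm⟩ := Pool.Agent.TH73.MI.t_fub (2 * m + 1)
  set S : Set (ℂ × (Fin (2 * m + 1) → ℝ)) := {q | q.2 ∈ Fb m q.1} ∩ {q | q.1 ∈ A} with hS
  have hSm : MeasurableSet S := (meas_tot m).inter (measurable_fst hA)
  have h1 : cylO (Bd m) A = e ⁻¹' S := by
    ext p
    rw [mem_preimage, he p]
    rfl
  rw [Measure.real, h1, hm.measure_preimage hSm.nullMeasurableSet, Measure.volume_eq_prod,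
    Measure.prod_apply hSm]
  have h2 : ∀ x : ℂ, volume (Prod.mk x ⁻¹' S) =
      A.indicator (fun x => ENNReal.ofReal (NN m * wt m x)) x := by
    intro x
    by_cases hx : x ∈ A
    · rw [indicator_of_mem hx, ← vol_Fb]
      congr 1
      ext y
      exact ⟨fun h => h.1, fun h => ⟨h, hx⟩⟩
    · rw [indicator_of_notMem hx]
      have : Prod.mk x ⁻¹' S = ∅ := by
        ext z
        exact ⟨fun h => absurd h.2 hx, fun h => absurd h (notMem_empty _)⟩
      rw [this, measure_empty]
  rw [lintegral_congr h2, lintegral_indicator hA]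
  unfold mu
  rw [← integral_const_mul, integral_eq_lintegral_of_nonneg_ae]
  · exact ae_of_all _ fun x => mul_nonneg (NN_pos m).le (wt_nonneg m x)
  · exact (meas_wt m).aestronglyMeasurable

/-! ### A2 -/

theorem norm_xc_le {b : ℕ} (ε : ℝ) (v : PP b) : ‖xc v‖ ≤ ‖sc ε v‖ := by
  have h1 : ‖xc v‖ ^ 2 = v 0 ^ 2 + v 1 ^ 2 := by
    rw [← Complex.normSq_eq_norm_sq, Complex.normSq_apply]
    unfold xc
    ring
  have h2 : ‖sc ε v‖ ^ 2 = v 0 ^ 2 + (v 1 ^ 2 +
      ∑ i : Fin b, ‖(sc ε v) i.succ.succ‖ ^ 2) := by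
    rw [EuclideanSpace.norm_sq_eq, Fin.sum_univ_succ, Fin.sum_univ_succ]
    congr 1
    · simp [sc]
    · congr 1
      simp [sc]
  have h3 : 0 ≤ ∑ i : Fin b, ‖(sc ε v) i.succ.succ‖ ^ 2 :=
    Finset.sum_nonneg fun i _ => by positivity
  exact le_of_sq_le_sq (by rw [h1, h2]; linarith) (norm_nonneg _)

theorem a2' : S_A2 := by
  intro m ε hε A hA C hP φ hφ
  have hn := NN_pos m
  have hF : ContDiff ℝ 1 (Fx φ) := (xL _).contDiff.comp (hφ.cd.comp (Sb _).contDiff)
  have hcF : HasCompactSupport (Fx φ) := (hcs_Sb hφ.cs).comp_left (g := xL _) (map_zero _)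
  have hts : ∀ q ∈ tsupport (Fx φ), Sb _ q ∈ Bd m := by
    intro q hq
    have h1 : tsupport (Fx φ) ⊆ Sb _ ⁻¹' tsupport φ := by
      refine closure_minimal ?_ ((isClosed_tsupport φ).preimage (Sb _).continuous)
      intro q hq
      refine subset_tsupport _ fun h => hq ?_
      unfold Fx
      rw [h, map_zero]
    exact hφ.sub (h1 hq)
  have hz : ∀ x y, y ∉ Fb m x → Fx φ (x, y) = 0 := by
    intro x y hy
    by_contra h
    exact hy (hts (x, y) (subset_tsupport _ h))
  have hYc : ContDiff ℝ 1 fun x => (NN m)⁻¹ • ∫ y, Fx φ (x, y) := by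
    have := (contDiff_marg hF hcF).const_smul (NN m)⁻¹
    exact this
  have hTW : TW (wt m) fun x => (NN m)⁻¹ • ∫ y, Fx φ (x, y) := by
    refine ⟨hYc, ?_, ?_, fun x => ?_⟩
    · refine HasCompactSupport.intro (K := Prod.fst '' tsupport (Fx φ))
        (hcF.isCompact.image continuous_fst) fun x hx => ?_
      have : ∀ y, Fx φ (x, y) = 0 := by
        intro y
        by_contra h'
        exact hx ⟨(x, y), subset_tsupport _ h', rfl⟩
      simp [this]
    · have h1 : tsupport (fun x => (NN m)⁻¹ • ∫ y, Fx φ (x, y)) ⊆ Prod.fst '' tsupport (Fx φ) := by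
        refine closure_minimal ?_ (hcF.isCompact.image continuous_fst).isClosed
        intro x hx
        by_contra h
        apply hx
        have : ∀ y, Fx φ (x, y) = 0 := by
          intro y
          by_contra h'
          exact h ⟨(x, y), subset_tsupport _ h', rfl⟩
        simp [this]
      refine h1.trans ?_
      rintro x ⟨⟨x', y⟩, hq, rfl⟩
      obtain ⟨h2, h3, -⟩ := hts _ hq
      rw [xc_Sb, yc_Sb] at h2 h3
      exact wt_pos (by dsimp only at h2 h3 ⊢; linarith)
    · rw [norm_smul, norm_inv, Real.norm_of_nonneg hn.le, inv_mul_le_iff₀ hn]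
      have h1 : ‖∫ y, Fx φ (x, y)‖ ≤ ∫ y, (Fb m x).indicator (fun _ => (1 : ℝ)) y := by
        have hfm : MeasurableSet (Fb m x) := measurable_prodMk_left (meas_tot m)
        refine norm_integral_le_of_norm_le ?_ (ae_of_all _ fun y => ?_)
        · refine (integrable_indicator_iff hfm).2 (integrableOn_const ?_)
          rw [vol_Fb]
          exact ENNReal.ofReal_ne_top
        · by_cases hy : y ∈ Fb m x
          · rw [indicator_of_mem hy]
            exact (norm_xc_le ε _).trans (hφ.bd _)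
          · rw [indicator_of_notMem hy, hz x y hy, norm_zero]
      have h2 : ∫ y, (Fb m x).indicator (fun _ => (1 : ℝ)) y = NN m * wt m x := by
        have hfm : MeasurableSet (Fb m x) := measurable_prodMk_left (meas_tot m)
        rw [integral_indicator hfm, setIntegral_const, smul_eq_mul, mul_one, Measure.real, vol_Fb,
          ENNReal.toReal_ofReal (mul_nonneg hn.le (wt_nonneg m x))]
      exact h1.trans h2.le
  have h1 := hP _ hTW
  have h2 : ∀ x, dv2 (fun x => (NN m)⁻¹ • ∫ y, Fx φ (x, y)) x =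
      (NN m)⁻¹ * Lam (fderiv ℝ (fun x => ∫ y, Fx φ (x, y)) x) := fun x =>
    Lam_fderiv (contDiff_marg hF hcF) x
  simp_rw [h2] at h1
  rw [integral_const_mul, inv_mul_le_iff₀ hn] at h1
  rw [integral_cylO hφ.cd hφ.cs hφ.sub hA]
  exact h1

theorem a1 (_c0 : S_C0) : S_A1 := a1'

theorem a2 (_c0 : S_C0) : S_A2 := a2'

end Pool.Agent.TH959.HU
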