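import Pool.Agent.TH703.HU.Stm
import Pool.Agent.TH73.MI.Basic
import Pool.Agent.TH959.MI.Low

/-!
# Project HU: fields integrated along the fibres
-/

set_option autoImplicit false

open MeasureTheory Set Metric Filter Topology
open scoped ENNReal Real

noncomputable section

namespace Pool.Agent.TH959.HU

open Pool.Agent.TH304.MI Pool.Agent.TH703.HU Pool.Agent.TH959.MI

/-- The inverse of the splitting. -/
def Sb (b : ℕ) : ℂ × (Fin b → ℝ) →L[ℝ] PP b :=
  LinearMap.toContinuousLinearMap
    { toFun := fun q => WithLp.toLp 2 (Fin.cons q.1.re (Fin.cons q.1.im q.2) : Fin (b + 2) → ℝ)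
      map_add' := fun p q => by
        ext i
        refine Fin.cases ?_ (fun j => ?_) i
        · simp
        · refine Fin.cases ?_ (fun k => ?_) j <;> simp
      map_smul' := fun r p => by
        ext i
        refine Fin.cases ?_ (fun j => ?_) i
        · simp
        · refine Fin.cases ?_ (fun k => ?_) j <;> simp }

theorem Sb_zero {b : ℕ} (q : ℂ × (Fin b → ℝ)) : (Sb b q) 0 = q.1.re := rfl

theorem Sb_one {b : ℕ} (q : ℂ × (Fin b → ℝ)) : (Sb b q) 1 = q.1.im := rfl

theorem Sb_succ {b : ℕ} (q : ℂ × (Fin b → ℝ)) (i : Fin b) : (Sb b q) i.succ.succ = q.2 i := rfl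

theorem xc_Sb {b : ℕ} (q : ℂ × (Fin b → ℝ)) : xc (Sb b q) = q.1 := rfl

theorem yc_Sb {b : ℕ} (q : ℂ × (Fin b → ℝ)) : yc (Sb b q) = q.2 := rfl

theorem Sb_T {b : ℕ} (p : PP b) : Sb b (xc p, yc p) = p := by
  ext i
  refine Fin.cases ?_ (fun j => ?_) i
  · rfl
  · refine Fin.cases ?_ (fun k => ?_) j
    · rfl
    · rfl

theorem Sb_single {b : ℕ} (j : Fin b) :
    Sb b (0, Pi.single j 1) = EuclideanSpace.single j.succ.succ (1 : ℝ) := by
  ext i
  refine Fin.cases ?_ (fun k => ?_) i
  · rw [Sb_zero]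
    have : (0 : Fin (b + 2)) ≠ j.succ.succ := (Fin.succ_ne_zero _).symm
    simp [this]
  · refine Fin.cases ?_ (fun k => ?_) k
    · rw [show (Fin.succ (0 : Fin (b + 1))) = 1 from rfl, Sb_one]
      have : (1 : Fin (b + 2)) ≠ j.succ.succ := by
        intro h
        have := congrArg Fin.val h
        simp at this
      simp [this]
    · rw [Sb_succ]
      by_cases h : k = j
      · subst h
        simp
      · have : k.succ.succ ≠ j.succ.succ := by
          intro h'
          exact h (Fin.succ_injective _ (Fin.succ_injective _ h'))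
        simp [h]

theorem Sb_single_zero {b : ℕ} : Sb b (1, 0) = EuclideanSpace.single 0 (1 : ℝ) := by
  ext i
  refine Fin.cases ?_ (fun k => ?_) i
  · rw [Sb_zero]
    simp
  · refine Fin.cases ?_ (fun k => ?_) k
    · rw [show (Fin.succ (0 : Fin (b + 1))) = 1 from rfl, Sb_one]
      simp
    · rw [Sb_succ]
      simp

theorem Sb_single_one {b : ℕ} : Sb b (Complex.I, 0) = EuclideanSpace.single 1 (1 : ℝ) := by
  ext i
  refine Fin.cases ?_ (fun k => ?_) i
  · rw [Sb_zero]
    simp
  · refine Fin.cases ?_ (fun k => ?_) k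
    · rw [show (Fin.succ (0 : Fin (b + 1))) = 1 from rfl, Sb_one]
      simp
    · rw [Sb_succ]
      have : (k.succ.succ : Fin (b + 2)) ≠ 1 := by
        intro h
        have := congrArg Fin.val h
        simp at this
      simp [this]

/-- the first two coordinates as a continuous linear map -/
def xL (b : ℕ) : PP b →L[ℝ] ℂ := (ContinuousLinearMap.fst ℝ ℂ (Fin b → ℝ)).comp (T b)

theorem xL_apply {b : ℕ} (p : PP b) : xL b p = xc p := rfl

/-- the `x`-part of a field in the split coordinates -/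
def Fx {b : ℕ} (φ : PP b → PP b) (q : ℂ × (Fin b → ℝ)) : ℂ := xL b (φ (Sb b q))

section fld

variable {b : ℕ} {φ : PP b → PP b}

theorem dv_split (hφ : Differentiable ℝ φ) (q : ℂ × (Fin b → ℝ)) :
    dv φ (Sb b q) = Lam (G1 (Fx φ) q) +
      ∑ j : Fin b, (fderiv ℝ φ (Sb b q) (Sb b (0, Pi.single j 1))) j.succ.succ := by
  have h1 : HasFDerivAt (Fx φ) ((xL b).comp ((fderiv ℝ φ (Sb b q)).comp (Sb b))) q :=
    (xL b).hasFDerivAt.comp q ((hφ _).hasFDerivAt.comp q (Sb b).hasFDerivAt)
  rw [dv, LinearMap.trace_eq_sum_inner _ (EuclideanSpace.basisFun (Fin (b + 2)) ℝ),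
    Fin.sum_univ_succ, Fin.sum_univ_succ]
  simp only [EuclideanSpace.basisFun_apply, ContinuousLinearMap.coe_coe,
    EuclideanSpace.inner_single_left, map_one, one_mul]
  rw [← add_assoc]
  congr 1
  · rw [Lam_apply, G1, h1.fderiv]
    simp only [ContinuousLinearMap.comp_apply, ContinuousLinearMap.inl_apply]
    rw [show (Fin.succ (0 : Fin (b + 1))) = 1 from rfl, Sb_single_zero, Sb_single_one, xL_apply,
      xL_apply]
    rfl
  · refine Finset.sum_congr rfl fun j _ => ?_
    rw [Sb_single]

theorem hcs_Sb (hc : HasCompactSupport φ) : HasCompactSupport (fun q => φ (Sb b q)) := by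
  refine HasCompactSupport.intro (K := T b '' tsupport φ) (hc.isCompact.image (T b).continuous)
    fun q hq => ?_
  by_contra h
  exact hq ⟨Sb b q, subset_tsupport _ h, rfl⟩

theorem integral_deriv_zero {g : (Fin b → ℝ) → ℝ} (hg : ContDiff ℝ 1 g)
    (hc : HasCompactSupport g) (v : Fin b → ℝ) : ∫ y, fderiv ℝ g y v = 0 := by
  have h1 : Continuous fun y => fderiv ℝ g y v :=
    (hg.continuous_fderiv (by norm_num)).clm_apply continuous_const
  have h2 : HasCompactSupport fun y => fderiv ℝ g y v :=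
    (hc.fderiv ℝ).comp_left (g := fun L : (Fin b → ℝ) →L[ℝ] ℝ => L v) (by simp)
  have h3 := integral_mul_fderiv_eq_neg_fderiv_mul_of_integrable (μ := (volume :
    Measure (Fin b → ℝ))) (f := fun _ : Fin b → ℝ => (1 : ℝ)) (g := g) (v := v) (by simp)
    (by simpa using h1.integrable_of_hasCompactSupport h2)
    (by simpa using hg.continuous.integrable_of_hasCompactSupport hc)
    (fun x _ => differentiableAt_const _) (fun x _ => hg.differentiable (by norm_num) x)
  simpa using h3

theorem integral_fibre (hφ : ContDiff ℝ 1 φ) (hc : HasCompactSupport φ) (x : ℂ) :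
    ∫ y, dv φ (Sb b (x, y)) = Lam (fderiv ℝ (fun x => ∫ y, Fx φ (x, y)) x) := by
  have hF : ContDiff ℝ 1 (Fx φ) := (xL b).contDiff.comp (hφ.comp (Sb b).contDiff)
  have hcF : HasCompactSupport (Fx φ) := (hcs_Sb hc).comp_left (g := xL b) (map_zero _)
  rw [← integral_Lam hF hcF]
  have hj : ∀ j : Fin b, ∃ g : (Fin b → ℝ) → ℝ, ContDiff ℝ 1 g ∧ HasCompactSupport g ∧
      ∀ y, (fderiv ℝ φ (Sb b (x, y)) (Sb b (0, Pi.single j 1))) j.succ.succ =
        fderiv ℝ g y (Pi.single j 1) := by
    intro j
    refine ⟨fun y => EuclideanSpace.proj (𝕜 := ℝ) (j.succ.succ : Fin (b + 2)) (φ (Sb b (x, y))),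
      ?_, ?_, fun y => ?_⟩
    · exact (EuclideanSpace.proj (𝕜 := ℝ) (j.succ.succ : Fin (b + 2))).contDiff.comp
        (hφ.comp ((Sb b).contDiff.comp (contDiff_prodMk_right x)))
    · exact (slice_hcs (hcs_Sb hc) x).comp_left
        (g := EuclideanSpace.proj (𝕜 := ℝ) (j.succ.succ : Fin (b + 2))) (map_zero _)
    · have h1 : HasFDerivAt (fun y : Fin b → ℝ => EuclideanSpace.proj (𝕜 := ℝ)
          (j.succ.succ : Fin (b + 2)) (φ (Sb b (x, y))))
          ((EuclideanSpace.proj (𝕜 := ℝ) (j.succ.succ : Fin (b + 2))).comp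
            ((fderiv ℝ φ (Sb b (x, y))).comp ((Sb b).comp
              (ContinuousLinearMap.inr ℝ ℂ (Fin b → ℝ))))) y := by
        refine (EuclideanSpace.proj (𝕜 := ℝ) (j.succ.succ : Fin (b + 2))).hasFDerivAt.comp y ?_
        refine (hφ.differentiable (by norm_num) _).hasFDerivAt.comp y ?_
        exact (Sb b).hasFDerivAt.comp y (hasFDerivAt_prodMk_right x y)
      rw [h1.fderiv]
      rfl
  choose g hg1 hg2 hg3 using hj
  have h1 : ∀ y, dv φ (Sb b (x, y)) = Lam (G1 (Fx φ) (x, y)) +
      ∑ j : Fin b, fderiv ℝ (g j) y (Pi.single j 1) := by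
    intro y
    rw [dv_split (hφ.differentiable (by norm_num))]
    congr 1
    exact Finset.sum_congr rfl fun j _ => hg3 j y
  simp_rw [h1]
  have hi : ∀ j : Fin b, Integrable fun y => fderiv ℝ (g j) y (Pi.single j 1) := by
    intro j
    have h2 : Continuous fun y => fderiv ℝ (g j) y (Pi.single j 1) :=
      ((hg1 j).continuous_fderiv (by norm_num)).clm_apply continuous_const
    exact h2.integrable_of_hasCompactSupport (((hg2 j).fderiv ℝ).comp_left
      (g := fun L : (Fin b → ℝ) →L[ℝ] ℝ => L (Pi.single j 1)) (by simp))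
  rw [integral_add, integral_finsetSum _ fun j _ => hi j,
    Finset.sum_eq_zero fun j _ => integral_deriv_zero (hg1 j) (hg2 j) _, add_zero]
  · refine Continuous.integrable_of_hasCompactSupport ?_ ?_
    · exact Lam.continuous.comp ((continuous_G1 hF).comp (Continuous.prodMk_right x))
    · exact (slice_hcs (hcs_G1 hcF) x).comp_left (g := Lam) (map_zero _)
  · exact integrable_finsetSum _ fun j _ => hi j

/-- the divergence integral over a cylindrical set -/
theorem integral_cylO {Ω : Set (PP b)} (hφ : ContDiff ℝ 1 φ) (hc : HasCompactSupport φ)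
    (hs : tsupport φ ⊆ Ω) {A : Set ℂ} (hA : MeasurableSet A) :
    ∫ p in cylO Ω A, dv φ p =
      ∫ x in A, Lam (fderiv ℝ (fun x => ∫ y, Fx φ (x, y)) x) := by
  obtain ⟨e, he, hm⟩ := Pool.Agent.TH73.MI.t_fub b
  have hset : MeasurableSet (e ⁻¹' (A ×ˢ (univ : Set (Fin b → ℝ)))) :=
    e.measurable (hA.prod MeasurableSet.univ)
  have h1 : ∫ p in cylO Ω A, dv φ p =
      ∫ p in e ⁻¹' (A ×ˢ (univ : Set (Fin b → ℝ))), dv φ p := by
    refine (setIntegral_eq_of_subset_of_forall_sdiff_eq_zero hset ?_ ?_).symm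
    · rintro p ⟨_, hp⟩
      rw [mem_preimage, he]
      exact ⟨hp, mem_univ _⟩
    · rintro p ⟨h2, h3⟩
      rw [mem_preimage, he] at h2
      have h4 : p ∉ Ω := fun h => h3 ⟨h, h2.1⟩
      have h5 : p ∉ tsupport φ := fun h => h4 (hs h)
      have h6 : fderiv ℝ φ p = 0 := by
        by_contra h
        exact h5 (support_fderiv_subset ℝ h)
      rw [dv, h6]
      simp
  have h2 : ∀ p, dv φ p = (fun q => dv φ (Sb b q)) (e p) := by
    intro p
    rw [he]
    dsimp only
    rw [Sb_T]
  have hdc : Continuous (dv φ) := by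
    have h3 : dv φ = fun p => (LinearMap.toContinuousLinearMap
        ((LinearMap.trace ℝ (PP b)).comp (ContinuousLinearMap.coeLM ℝ
          : (PP b →L[ℝ] PP b) →ₗ[ℝ] (PP b →ₗ[ℝ] PP b)))) (fderiv ℝ φ p) := rfl
    rw [h3]
    exact (ContinuousLinearMap.continuous _).comp (hφ.continuous_fderiv (by norm_num))
  have hdcs : HasCompactSupport (dv φ) :=
    (hc.fderiv ℝ).comp_left (g := fun L : PP b →L[ℝ] PP b => LinearMap.trace ℝ (PP b) L.toLinearMap)
      (map_zero (LinearMap.trace ℝ (PP b)))
  rw [h1, setIntegral_congr_fun (g := fun p => (fun q => dv φ (Sb b q)) (e p)) hset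
    (fun p _ => h2 p)]
  refine (hm.setIntegral_preimage_emb e.measurableEmbedding (fun q => dv φ (Sb b q)) _).trans ?_
  rw [Measure.volume_eq_prod, setIntegral_prod]
  · refine setIntegral_congr_fun hA fun x _ => ?_
    rw [Measure.restrict_univ]
    exact integral_fibre hφ hc x
  · refine Integrable.integrableOn ?_
    rw [← Measure.volume_eq_prod]
    refine Continuous.integrable_of_hasCompactSupport (hdc.comp (Sb b).continuous) ?_
    refine HasCompactSupport.intro (K := T b '' tsupport (dv φ))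
      (hdcs.isCompact.image (T b).continuous) fun q hq => ?_
    by_contra h
    exact hq ⟨Sb b q, subset_tsupport _ h, rfl⟩

end fld

/-! ### The planar field -/

section marg

variable {b : ℕ} {F : ℂ × (Fin b → ℝ) → ℂ}

theorem contDiff_marg (hF : ContDiff ℝ 1 F) (hc : HasCompactSupport F) :
    ContDiff ℝ 1 (fun x => ∫ y, F (x, y)) := by
  rw [contDiff_one_iff_fderiv]
  refine ⟨fun x => (hasFDerivAt_marg hF hc x).differentiableAt, ?_⟩
  have h1 : fderiv ℝ (fun x => ∫ y, F (x, y)) = fun x => ∫ y, G1 F (x, y) :=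
    funext fun x => (hasFDerivAt_marg hF hc x).fderiv
  rw [h1]
  obtain ⟨M, hM⟩ := (continuous_G1 hF).bounded_above_of_compact_support (hcs_G1 hc)
  have hK : IsCompact (Prod.snd '' tsupport (G1 F)) :=
    (hcs_G1 hc).isCompact.image continuous_snd
  refine continuous_of_dominated (bound := (Prod.snd '' tsupport (G1 F)).indicator fun _ => M)
    (fun x => ?_) (fun x => ?_) ?_ ?_
  · exact ((continuous_G1 hF).comp (Continuous.prodMk_right x)).aestronglyMeasurable
  · refine ae_of_all _ fun y => ?_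
    by_cases hy : y ∈ Prod.snd '' tsupport (G1 F)
    · rw [indicator_of_mem hy]
      exact hM _
    · rw [indicator_of_notMem hy]
      have : G1 F (x, y) = 0 := by
        by_contra h
        exact hy ⟨(x, y), subset_tsupport _ h, rfl⟩
      rw [this, norm_zero]
  · exact (integrable_indicator_iff hK.measurableSet).2 (integrableOn_const hK.measure_lt_top.ne)
  · exact ae_of_all _ fun y => (continuous_G1 hF).comp (Continuous.prodMk_left y)

theorem tsupport_marg (hc : HasCompactSupport F) :
    tsupport (fun x => ∫ y, F (x, y)) ⊆ Prod.fst '' tsupport F := by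
  refine closure_minimal ?_ (hc.isCompact.image continuous_fst).isClosed
  intro x hx
  by_contra h
  apply hx
  have : ∀ y, F (x, y) = 0 := by
    intro y
    by_contra h'
    exact h ⟨(x, y), subset_tsupport _ h', rfl⟩
  simp [this]

end marg

end Pool.Agent.TH959.HU
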